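import Pool.Agent.Q28.AF.Main

/-!
# The simplicial volume of closed affine manifolds: boundedness suffices

Every closed affine manifold has coverings of arbitrarily large finite degree, and the simplicial
volume is multiplicative; and powers of affine manifolds are affine, with `‖M^j‖ ≥ ‖M‖^j`. So if
`‖M‖ > 0` for one closed affine `n`-manifold, then for all `j ≥ 1` the simplicial volumes of the
closed affine `jn`-manifolds are unbounded. Hence question Q1 is equivalent to the boundedness of the
simplicial volumes of the closed affine manifolds of dimension `k`, for all `k` in a fixed set `I` of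
positive integers such that every positive integer divides a member of `I` (for instance, the
factorials).
-/

universe u

namespace Pool.Agent.Results.MP_f22a19_gt.BoundedVolumesSuffice

open Pool.Agent.Q28.AF

/-- **Bounded simplicial volumes suffice.** Let `T` be the closed affine manifolds (`hT`: known
facts).

1. If `‖M‖ ≠ 0` then for all `j ≥ 1` and `C` there is a closed affine manifold `M'` of dimension
  `j dim M` with `‖M'‖ > C`.
2. Let `I` be a set of positive integers such that every positive integer divides a member of `I`.
  Then Q1 holds (`‖M‖ = 0` for all `M`) if and only if for every `k` in `I` the simplicial volumes of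
  the closed affine manifolds of dimension `k` are bounded. -/
theorem result (T : Affine.{u}) (hT : T.Facts) :
    (∀ M : T.Mfd, T.vol M ≠ 0 → ∀ j : ℕ, 0 < j → ∀ C : ℝ,
      ∃ M' : T.Mfd, T.dim M' = T.dim M * j ∧ C < T.vol M') ∧
    ∀ I : Set ℕ, (∀ k ∈ I, 0 < k) → (∀ n, 0 < n → ∃ k ∈ I, n ∣ k) →
      ((∀ M, T.vol M = 0) ↔ ∀ k ∈ I, ∃ C : ℝ, ∀ M, T.dim M = k → T.vol M ≤ C) :=
  ⟨hT.multiples, fun _ h0 hI => hT.bounded h0 hI⟩

end Pool.Agent.Results.MP_f22a19_gt.BoundedVolumesSuffice
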